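import Pool.Agent.R295.HM.Hered

/-!
# MP_7e9539_an: ternary hereditary subspaces of Hilbert modules are linking hereditary

`Pool.Agent.R295.HM.HilbertModule` is the usual structure of a right Hilbert module over a
C*-algebra, `H.act x b = x b`, `H.ip x y = ⟨x, y⟩`; `H.link F` is the reduced linking algebra of the
subspace `F` (and `H.link Set.univ` that of `E`), as a set of operators on `B ⊕ E`.
-/

set_option autoImplicit false

open Pool.Agent.R295.HM

namespace Pool.Agent.Results.MP_7e9539_an.LinkHereditary

/-- Let `E` be a Hilbert module over the C*-algebra `B` and let `F` be a closed ternary subspace of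
`E` with `x ⟨y, z⟩ ∈ F` for all `x, z ∈ F` and `y ∈ E`. Then the reduced linking algebra of `F` is
hereditary in the reduced linking algebra of `E`. -/
theorem result {B E : Type*} [NonUnitalCStarAlgebra B] [NormedAddCommGroup E] [NormedSpace ℂ E]
    [CompleteSpace E] (H : HilbertModule B E) (F : Submodule ℂ E) (hF : H.IsTernary F)
    (her : ∀ x ∈ F, ∀ y : E, ∀ z ∈ F, H.act x (H.ip y z) ∈ F) :
    ∀ S ∈ H.link F, ∀ A ∈ H.link Set.univ, ∀ S' ∈ H.link F, S ∘ₗ A ∘ₗ S' ∈ H.link F :=
  fun _ hS _ hA _ hS' => H.link_hereditary hF her hS hA hS'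

end Pool.Agent.Results.MP_7e9539_an.LinkHereditary
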